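import Mathlib
import Pool.Agent.Helper4.FSS.Defs
import Pool.Agent.Helper4.FSS.Defs2

/-!
Block FSS-UM: the ball tree of a compact ultrametric space with a finite similarity structure.
-/

set_option autoImplicit false
set_option linter.unusedSectionVars false

namespace Pool.Helper4.FSS

open Set

namespace UM

variable {X : Type*} [MetricSpace X]

/-- extension by the identity -/
noncomputable def ext (B B' : Set X) (h : B ≃ B') : X → X :=
  open Classical in fun y => if hy : y ∈ B then (h ⟨y, hy⟩ : X) else y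

theorem ext_mem {B B' : Set X} (h : B ≃ B') {y : X} (hy : y ∈ B) :
    ext B B' h y = (h ⟨y, hy⟩ : X) := by
  unfold ext
  rw [dif_pos hy]

/-- children of a ball -/
noncomputable def chl (B : Set X) : Set (Set X) :=
  {C | (B.Subsingleton ∧ C = B) ∨ (¬ B.Subsingleton ∧ ∃ y ∈ B, C = Metric.ball y (Metric.diam B))}

/-- the ball tree -/
noncomputable def sys (Sm : FSStr X) : Sys X (Set X) where
  root := univ
  pts := id
  ch := chl
  sim := fun B B' => (ext B B') '' (Sm.Sim B B')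

section facts

variable [CompactSpace X]

theorem bdd (B : Set X) : Bornology.IsBounded B :=
  (Metric.isBounded_of_compactSpace (s := B))

theorem dist_le {B : Set X} {x y : X} (hx : x ∈ B) (hy : y ∈ B) :
    dist x y ≤ Metric.diam B := Metric.dist_le_diam_of_mem (bdd B) hx hy

theorem diam_pos {B : Set X} (hB : ¬ B.Subsingleton) : 0 < Metric.diam B := by
  rw [Set.not_subsingleton_iff] at hB
  obtain ⟨x, hx, y, hy, hxy⟩ := hB
  exact lt_of_lt_of_le (dist_pos.2 hxy) (dist_le hx hy)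

variable [IsUltrametricDist X]

theorem attained {B : Set X} (hB : IsBall B) : ∃ a ∈ B, ∃ b ∈ B, dist a b = Metric.diam B := by
  obtain ⟨x, r, hr, rfl⟩ := hB
  have hc : IsClosed (Metric.ball x r) := IsUltrametricDist.isClosed_ball x r
  have hk : IsCompact (Metric.ball x r ×ˢ Metric.ball x r) := (hc.isCompact).prod hc.isCompact
  have hne : (Metric.ball x r ×ˢ Metric.ball x r).Nonempty :=
    ⟨(x, x), ⟨Metric.mem_ball_self hr, Metric.mem_ball_self hr⟩⟩
  obtain ⟨p, hp, hmax⟩ := hk.exists_isMaxOn hne (continuous_dist.continuousOn)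
  refine ⟨p.1, hp.1, p.2, hp.2, ?_⟩
  apply le_antisymm
  · exact dist_le hp.1 hp.2
  · apply Metric.diam_le_of_forall_dist_le dist_nonneg
    intro a ha b hb
    exact hmax (show (a, b) ∈ Metric.ball x r ×ˢ Metric.ball x r from ⟨ha, hb⟩)

theorem ball_eq {x y : X} {r : ℝ} (h : y ∈ Metric.ball x r) :
    Metric.ball x r = Metric.ball y r := IsUltrametricDist.ball_eq_of_mem h

theorem diam_lt {x : X} {r : ℝ} (hr : 0 < r) : Metric.diam (Metric.ball x r) < r := by
  obtain ⟨a, ha, b, hb, hab⟩ := attained (X := X) ⟨x, r, hr, rfl⟩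
  rw [← hab]
  rw [ball_eq ha] at hb
  rw [dist_comm]
  exact hb

theorem ball_sub {B : Set X} (hB : IsBall B) {y : X} (hy : y ∈ B) :
    Metric.ball y (Metric.diam B) ⊆ B := by
  obtain ⟨x, r, hr, rfl⟩ := hB
  rw [ball_eq hy]
  exact Metric.ball_subset_ball (le_of_lt (by rw [← ball_eq hy]; exact diam_lt hr))

theorem isBall_nonempty {B : Set X} (hB : IsBall B) : B.Nonempty := by
  obtain ⟨x, r, hr, rfl⟩ := hB
  exact ⟨x, Metric.mem_ball_self hr⟩

theorem isBall_univ [Nonempty X] : IsBall (univ : Set X) := by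
  obtain ⟨x⟩ := (inferInstance : Nonempty X)
  refine ⟨x, Metric.diam (univ : Set X) + 1, ?_, ?_⟩
  · have := Metric.diam_nonneg (s := (univ : Set X))
    linarith
  · ext y
    simp only [mem_univ, Metric.mem_ball, true_iff]
    have := dist_le (mem_univ y) (mem_univ x)
    linarith

theorem isBall_ch {B C : Set X} (hB : IsBall B) (hC : C ∈ chl B) : IsBall C := by
  rcases hC with ⟨_, rfl⟩ | ⟨hn, y, hy, rfl⟩
  · exact hB
  · exact ⟨y, _, diam_pos hn, rfl⟩

theorem isBall_lev [Nonempty X] (Sm : FSStr X) (n : ℕ) :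
    ∀ B ∈ (sys Sm).lev n, IsBall B := by
  induction n with
  | zero =>
    intro B hB
    have : B = univ := hB
    rw [this]
    exact isBall_univ
  | succ n ih =>
    intro B hB
    obtain ⟨A, hA, hAB⟩ := hB
    exact isBall_ch (ih A hA) hAB

theorem isBall_node [Nonempty X] (Sm : FSStr X) {B : Set X} (hB : (sys Sm).IsNode B) :
    IsBall B := by
  obtain ⟨n, hn⟩ := hB
  exact isBall_lev Sm n B hn

theorem ch_sub {B C : Set X} (hB : IsBall B) (hC : C ∈ chl B) : C ⊆ B := by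
  rcases hC with ⟨_, rfl⟩ | ⟨hn, y, hy, rfl⟩
  · exact subset_rfl
  · exact ball_sub hB hy

theorem finite_balls (δ : ℝ) (hδ : 0 < δ) : {C : Set X | ∃ y, C = Metric.ball y δ}.Finite := by
  have hcov : (univ : Set X) ⊆ ⋃ y : X, Metric.ball y δ := by
    intro y _
    exact mem_iUnion.2 ⟨y, Metric.mem_ball_self hδ⟩
  obtain ⟨t, ht⟩ := isCompact_univ.elim_finite_subcover (fun y : X => Metric.ball y δ)
    (fun y => Metric.isOpen_ball) hcov
  refine (t.finite_toSet.image (fun y => Metric.ball y δ)).subset ?_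
  rintro C ⟨y, rfl⟩
  obtain ⟨z, hz, hyz⟩ := mem_iUnion₂.1 (ht (mem_univ y))
  exact ⟨z, hz, ball_eq hyz⟩

theorem ch_fin (B : Set X) : (chl B).Finite := by
  by_cases hB : B.Subsingleton
  · refine (finite_singleton B).subset ?_
    rintro C (⟨_, rfl⟩ | ⟨hn, _⟩)
    · rfl
    · exact absurd hB hn
  · refine (finite_balls (Metric.diam B) (diam_pos hB)).subset ?_
    rintro C (⟨hs, _⟩ | ⟨hn, y, hy, rfl⟩)
    · exact absurd hs hB
    · exact ⟨y, rfl⟩

theorem ch_part {B : Set X} {x : X} (hx : x ∈ B) : ∃! C, C ∈ chl B ∧ x ∈ C := by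
  by_cases hB : B.Subsingleton
  · refine ⟨B, ⟨Or.inl ⟨hB, rfl⟩, hx⟩, ?_⟩
    rintro C ⟨⟨_, rfl⟩ | ⟨hn, _⟩, _⟩
    · rfl
    · exact absurd hB hn
  · refine ⟨Metric.ball x (Metric.diam B), ⟨Or.inr ⟨hB, x, hx, rfl⟩,
      Metric.mem_ball_self (diam_pos hB)⟩, ?_⟩
    rintro C ⟨⟨hs, _⟩ | ⟨hn, y, hy, rfl⟩, hxC⟩
    · exact absurd hs hB
    · exact ball_eq hxC

theorem ch_res (Sm : FSStr X) {B B' : Set X} (hB : IsBall B) (hB' : IsBall B')
    (h : B ≃ B') (hh : h ∈ Sm.Sim B B') {C : Set X} (hC : C ∈ chl B) :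
    ∃ C' ∈ chl B', ∃ k ∈ Sm.Sim C C', ∀ x (hx : x ∈ C) (hx' : x ∈ B),
      (k ⟨x, hx⟩ : X) = h ⟨x, hx'⟩ := by
  have hCball := isBall_ch hB hC
  rcases hC with ⟨hs, rfl⟩ | ⟨hn, y, hy, rfl⟩
  · refine ⟨B', Or.inl ⟨?_, rfl⟩, h, hh, fun x hx hx' => rfl⟩
    intro a ha b hb
    have h1 : h.symm ⟨a, ha⟩ = h.symm ⟨b, hb⟩ :=
      Subtype.ext (hs (h.symm ⟨a, ha⟩).2 (h.symm ⟨b, hb⟩).2)
    have h2 := h.symm.injective h1
    exact congrArg Subtype.val h2
  · have hsub := ball_sub hB hy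
    obtain ⟨lam, hlam, hsim⟩ := Sm.similarity B B' hB hB' h hh
    obtain ⟨B4, hB4, k, hk, hkx⟩ := Sm.restrict_mem B B' _ hB hB' hCball h hh hsub
    -- diameters
    have hd : Metric.diam B' = lam * Metric.diam B := by
      apply le_antisymm
      · apply Metric.diam_le_of_forall_dist_le (by positivity)
        intro a ha b hb
        have h1 := hsim (h.symm ⟨a, ha⟩) (h.symm ⟨b, hb⟩)
        rw [h.apply_symm_apply, h.apply_symm_apply] at h1
        have h2 : dist a b = lam * dist (h.symm ⟨a, ha⟩) (h.symm ⟨b, hb⟩) := h1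
        rw [h2]
        exact mul_le_mul_of_nonneg_left (dist_le (h.symm ⟨a, ha⟩).2 (h.symm ⟨b, hb⟩).2) hlam.le
      · obtain ⟨a, ha, b, hb, hab⟩ := attained hB
        have h1 := hsim ⟨a, ha⟩ ⟨b, hb⟩
        have h2 : dist (h ⟨a, ha⟩ : X) (h ⟨b, hb⟩ : X) = lam * dist a b := h1
        rw [← hab, ← h2]
        exact dist_le (h ⟨a, ha⟩).2 (h ⟨b, hb⟩).2
    have hn' : ¬ B'.Subsingleton := by
      intro hs
      apply hn
      intro a ha b hb
      have h1 : h ⟨a, ha⟩ = h ⟨b, hb⟩ :=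
        Subtype.ext (hs (h ⟨a, ha⟩).2 (h ⟨b, hb⟩).2)
      have h2 := h.injective h1
      exact congrArg Subtype.val h2
    have hy' : (h ⟨y, hy⟩ : X) ∈ B' := (h ⟨y, hy⟩).2
    have hB4eq : B4 = Metric.ball (h ⟨y, hy⟩ : X) (Metric.diam B') := by
      refine Set.ext (fun z => ?_)
      constructor
      · intro hz
        have h1 := hkx (k.symm ⟨z, hz⟩)
        rw [k.apply_symm_apply] at h1
        have h2 := (k.symm ⟨z, hz⟩).2
        have h3 := hsim ⟨k.symm ⟨z, hz⟩, hsub h2⟩ ⟨y, hy⟩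
        have h4 : dist (h ⟨k.symm ⟨z, hz⟩, hsub h2⟩ : X) (h ⟨y, hy⟩ : X)
          = lam * dist (k.symm ⟨z, hz⟩ : X) y := h3
        rw [← h1] at h4
        rw [Metric.mem_ball, h4, hd]
        exact mul_lt_mul_of_pos_left h2 hlam
      · intro hz
        have hzB : z ∈ B' := ball_sub hB' hy' hz
        have h3 := hsim (h.symm ⟨z, hzB⟩) ⟨y, hy⟩
        rw [h.apply_symm_apply] at h3
        have h4 : dist z (h ⟨y, hy⟩ : X) = lam * dist (h.symm ⟨z, hzB⟩ : X) y := h3
        rw [Metric.mem_ball, h4, hd] at hz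
        have h5 : dist (h.symm ⟨z, hzB⟩ : X) y < Metric.diam B := lt_of_mul_lt_mul_left hz hlam.le
        have h6 := hkx ⟨(h.symm ⟨z, hzB⟩ : X), h5⟩
        have h7 : (⟨(h.symm ⟨z, hzB⟩ : X), hsub h5⟩ : B) = h.symm ⟨z, hzB⟩ := rfl
        rw [h7, h.apply_symm_apply] at h6
        have h8 : (k ⟨(h.symm ⟨z, hzB⟩ : X), h5⟩ : X) = z := h6
        rw [← h8]
        exact (k ⟨(h.symm ⟨z, hzB⟩ : X), h5⟩).2
    subst hB4eq
    exact ⟨_, Or.inr ⟨hn', _, hy', rfl⟩, k, hk, fun x hx hx' => hkx ⟨x, hx⟩⟩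

theorem good [Nonempty X] (Sm : FSStr X) : (sys Sm).Good where
  root_pts := rfl
  pts_ne := fun B hB => isBall_nonempty (isBall_node Sm hB)
  ch_sub := fun B hB C hC => ch_sub (isBall_node Sm hB) hC
  ch_part := fun B _ x hx => ch_part hx
  ch_fin := fun B _ => ch_fin B
  ch_loop := fun B _ C _ h => h
  maps := by
    rintro B B' hB hB' _ ⟨h, hh, rfl⟩
    refine ⟨?_, ?_, ?_⟩
    · intro y hy
      rw [ext_mem h hy]
      exact (h ⟨y, hy⟩).2
    · intro a ha b hb hab
      rw [ext_mem h ha, ext_mem h hb] at hab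
      exact congrArg Subtype.val (h.injective (Subtype.ext hab))
    · intro z hz
      refine ⟨h.symm ⟨z, hz⟩, (h.symm ⟨z, hz⟩).2, ?_⟩
      rw [ext_mem h (h.symm ⟨z, hz⟩).2]
      exact congrArg Subtype.val (h.apply_symm_apply ⟨z, hz⟩)
  fin := fun B hB => (Sm.finite B B (isBall_node Sm hB) (isBall_node Sm hB)).image _
  one := fun B hB => ⟨_, ⟨Equiv.refl B, Sm.id_mem B (isBall_node Sm hB), rfl⟩,
    fun x hx => by
      have hx : x ∈ B := hx
      rw [ext_mem (Equiv.refl B) hx]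
      rfl⟩
  inv := by
    rintro B B' hB hB' _ ⟨h, hh, rfl⟩
    refine ⟨_, ⟨h.symm, Sm.inv_mem B B' (isBall_node Sm hB) (isBall_node Sm hB') h hh, rfl⟩, ?_⟩
    intro x hx
    have hx : x ∈ B := hx
    rw [ext_mem h hx, ext_mem h.symm (h ⟨x, hx⟩).2]
    exact congrArg Subtype.val (h.symm_apply_apply ⟨x, hx⟩)
  comp := by
    rintro B B' B'' hB hB' hB'' _ ⟨h, hh, rfl⟩ _ ⟨k, hk, rfl⟩
    refine ⟨_, ⟨h.trans k, Sm.comp_mem B B' B'' (isBall_node Sm hB) (isBall_node Sm hB')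
      (isBall_node Sm hB'') h hh k hk, rfl⟩, ?_⟩
    intro x hx
    have hx : x ∈ B := hx
    rw [ext_mem h hx, ext_mem k (h ⟨x, hx⟩).2, ext_mem (h.trans k) hx]
    rfl
  res := by
    rintro B B' hB hB' _ ⟨h, hh, rfl⟩ C hC
    obtain ⟨C', hC', k, hk, hkx⟩ := ch_res Sm (isBall_node Sm hB) (isBall_node Sm hB') h hh hC
    refine ⟨C', hC', _, ⟨k, hk, rfl⟩, ?_⟩
    intro x hx
    have hx : x ∈ C := hx
    have hxB : x ∈ B := ch_sub (isBall_node Sm hB) hC hx
    rw [ext_mem k hx, ext_mem h hxB]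
    exact hkx x hx hxB

/-! ### small diameters -/

theorem finite_dist (ε : ℝ) (hε : 0 < ε) : {v : ℝ | ε ≤ v ∧ ∃ x y : X, dist x y = v}.Finite := by
  have hcov : (univ : Set X) ⊆ ⋃ y : X, Metric.ball y ε := by
    intro y _
    exact mem_iUnion.2 ⟨y, Metric.mem_ball_self hε⟩
  obtain ⟨t, ht⟩ := isCompact_univ.elim_finite_subcover (fun y : X => Metric.ball y ε)
    (fun y => Metric.isOpen_ball) hcov
  refine ((t.finite_toSet.prod t.finite_toSet).image (fun p => dist p.1 p.2)).subset ?_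
  rintro v ⟨hv, x, y, rfl⟩
  obtain ⟨a, ha, hxa⟩ := mem_iUnion₂.1 (ht (mem_univ x))
  obtain ⟨b, hb, hyb⟩ := mem_iUnion₂.1 (ht (mem_univ y))
  refine ⟨(a, b), ⟨ha, hb⟩, ?_⟩
  simp only
  have hxa' : dist x a < ε := hxa
  have hyb' : dist y b < ε := hyb
  have h1 : dist x y ≤ max (dist x a) (dist a y) := IsUltrametricDist.dist_triangle_max x a y
  have h2 : dist a y ≤ max (dist a b) (dist b y) := IsUltrametricDist.dist_triangle_max a b y
  have h3 : dist a b ≤ max (dist a x) (dist x b) := IsUltrametricDist.dist_triangle_max a x b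
  have h4 : dist x b ≤ max (dist x y) (dist y b) := IsUltrametricDist.dist_triangle_max x y b
  rw [dist_comm a x] at h3
  rw [dist_comm b y] at h2
  apply le_antisymm
  · refine h3.trans (max_le (by linarith) (h4.trans (max_le le_rfl (by linarith))))
  · by_contra hlt
    push Not at hlt
    have h5 : dist a y < dist x y := lt_of_le_of_lt h2 (max_lt hlt (by linarith))
    exact absurd h1 (not_le.2 (max_lt (by linarith) h5))

theorem lev_ncard [Nonempty X] (Sm : FSStr X) (ε : ℝ) (hε : 0 < ε) (n : ℕ) :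
    ∀ B ∈ (sys Sm).lev n, ε ≤ Metric.diam B →
      n ≤ ({v : ℝ | (ε ≤ v ∧ ∃ x y : X, dist x y = v) ∧ Metric.diam B < v}).ncard := by
  induction n with
  | zero => intro B _ _; exact Nat.zero_le _
  | succ n ih =>
    intro C hC hd
    obtain ⟨B, hB, hBC⟩ := hC
    have hBball := isBall_lev Sm n B hB
    have hCB : C ⊆ B := ch_sub hBball hBC
    have hdBC : Metric.diam C ≤ Metric.diam B := Metric.diam_mono hCB (bdd B)
    have hlt : Metric.diam C < Metric.diam B := by
      rcases hBC with ⟨hs, rfl⟩ | ⟨hn, y, hy, rfl⟩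
      · rw [Metric.diam_subsingleton hs] at hd
        linarith
      · exact diam_lt (diam_pos hn)
    have h1 := ih B hB (hd.trans hdBC)
    have hfin : ({v : ℝ | (ε ≤ v ∧ ∃ x y : X, dist x y = v) ∧ Metric.diam B < v}).Finite :=
      (finite_dist (X := X) ε hε).subset (fun v hv => hv.1)
    have hfin' : ({v : ℝ | (ε ≤ v ∧ ∃ x y : X, dist x y = v) ∧ Metric.diam C < v}).Finite :=
      (finite_dist (X := X) ε hε).subset (fun v hv => hv.1)
    obtain ⟨a, ha, b, hb, hab⟩ := attained hBball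
    have hnot : Metric.diam B ∉ {v : ℝ | (ε ≤ v ∧ ∃ x y : X, dist x y = v) ∧ Metric.diam B < v} :=
      fun h => lt_irrefl _ h.2
    have h2 : insert (Metric.diam B)
        {v : ℝ | (ε ≤ v ∧ ∃ x y : X, dist x y = v) ∧ Metric.diam B < v} ⊆
        {v : ℝ | (ε ≤ v ∧ ∃ x y : X, dist x y = v) ∧ Metric.diam C < v} := by
      intro v hv
      rcases hv with rfl | hv
      · exact ⟨⟨hd.trans hdBC, a, b, hab⟩, hlt⟩
      · exact ⟨hv.1, hlt.trans hv.2⟩
    have h3 := Set.ncard_le_ncard h2 hfin'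
    rw [Set.ncard_insert_of_notMem hnot hfin] at h3
    omega

theorem small [Nonempty X] (Sm : FSStr X) (ε : ℝ) (hε : 0 < ε) :
    ∃ N : ℕ, ∀ B ∈ (sys Sm).lev N, Metric.diam B < ε := by
  refine ⟨({v : ℝ | ε ≤ v ∧ ∃ x y : X, dist x y = v}).ncard + 1, ?_⟩
  intro B hB
  by_contra hlt
  push Not at hlt
  have h1 := lev_ncard Sm ε hε _ B hB hlt
  have h2 : ({v : ℝ | (ε ≤ v ∧ ∃ x y : X, dist x y = v) ∧ Metric.diam B < v}).ncard ≤
      ({v : ℝ | ε ≤ v ∧ ∃ x y : X, dist x y = v}).ncard :=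
    Set.ncard_le_ncard (fun v hv => hv.1) (finite_dist (X := X) ε hε)
  omega

theorem ball_node [Nonempty X] (Sm : FSStr X) {A : Set X} (hA : IsBall A) :
    ∃ m, A ∈ (sys Sm).lev m := by
  obtain ⟨x, r, hr, rfl⟩ := hA
  obtain ⟨N, hN⟩ := small Sm r hr
  have key : ∀ n : ℕ, (∃ m, Metric.ball x r ∈ (sys Sm).lev m) ∨
      ∃ B ∈ (sys Sm).lev n, x ∈ B ∧ Metric.ball x r ⊆ B := by
    intro n
    induction n with
    | zero => exact Or.inr ⟨univ, rfl, mem_univ x, subset_univ _⟩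
    | succ n ih =>
      rcases ih with h | ⟨B, hB, hxB, hsub⟩
      · exact Or.inl h
      · by_cases heq : Metric.ball x r = B
        · exact Or.inl ⟨n, heq ▸ hB⟩
        · right
          have hnB : ¬ B.Subsingleton := by
            intro hs
            apply heq
            apply subset_antisymm hsub
            intro y hy
            rw [hs hy hxB]
            exact Metric.mem_ball_self hr
          have hle : r ≤ Metric.diam B := by
            by_contra hlt
            push Not at hlt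
            apply heq
            apply subset_antisymm hsub
            intro y hy
            exact lt_of_le_of_lt (dist_le hy hxB) hlt
          exact ⟨Metric.ball x (Metric.diam B), ⟨B, hB, Or.inr ⟨hnB, x, hxB, rfl⟩⟩,
            Metric.mem_ball_self (diam_pos hnB), Metric.ball_subset_ball hle⟩
  rcases key N with h | ⟨B, hB, hxB, hsub⟩
  · exact h
  · refine ⟨N, ?_⟩
    have heq : Metric.ball x r = B := by
      apply subset_antisymm hsub
      intro y hy
      exact lt_of_le_of_lt (dist_le hy hxB) (hN B hB)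
    rw [heq]
    exact hB

theorem loc [Nonempty X] (Sm : FSStr X) (γ : X ≃ₜ X) (hγ : Sm.Loc γ) : (sys Sm).Loc γ := by
  choose B B' hB hB' hxB h hh hγ' using hγ
  have hopen : ∀ x : X, IsOpen (B x) := by
    intro x
    obtain ⟨y, r, hr, hy⟩ := hB x
    rw [hy]
    exact Metric.isOpen_ball
  obtain ⟨δ, hδ, hleb⟩ := lebesgue_number_lemma_of_metric (s := (univ : Set X)) (c := B)
    isCompact_univ hopen (fun x _ => mem_iUnion.2 ⟨x, hxB x⟩)
  obtain ⟨N, hN⟩ := small Sm δ hδ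
  refine ⟨N, ?_⟩
  intro A hA
  have hAball := isBall_lev Sm N A hA
  obtain ⟨x, hx⟩ := isBall_nonempty hAball
  obtain ⟨i, hi⟩ := hleb x (mem_univ x)
  have hsub : A ⊆ B i := by
    intro y hy
    exact hi (lt_of_le_of_lt (dist_le hy hx) (hN A hA))
  obtain ⟨B4, hB4, k, hk, hkx⟩ := Sm.restrict_mem (B i) (B' i) A (hB i) (hB' i) hAball (h i)
    (hh i) hsub
  obtain ⟨m, hm⟩ := ball_node Sm hB4
  refine ⟨m, B4, hm, _, ⟨k, hk, rfl⟩, ?_⟩
  intro y hy
  have hy : y ∈ A := hy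
  rw [ext_mem k hy, hkx ⟨y, hy⟩]
  exact hγ' i ⟨y, hsub hy⟩

end facts

end UM

/-- The ball tree of a compact ultrametric space. -/
theorem exists_sys_of_FSStr {X : Type*} [MetricSpace X] [CompactSpace X] [IsUltrametricDist X]
    [Nonempty X] (Sm : FSStr X) :
    ∃ Y : Sys X (Set X), Y.Good ∧ ∀ γ : X ≃ₜ X, Sm.Loc γ → Y.Loc γ :=
  ⟨UM.sys Sm, UM.good Sm, fun γ hγ => UM.loc Sm γ hγ⟩

end Pool.Helper4.FSS
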